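import Pool.Agent.H950.ON.St

/-!
Project ON of helper950, part O1 (helper618): potentials on the hexagonal lattice.
-/

set_option autoImplicit false

namespace Pool.Agent.H618.ON

open Pool.Agent.X136.ON

/-- sums over intervals of integers -/
theorem prim (f : ℤ → ZMod 2) : ∃ F : ℤ → ZMod 2, F 0 = 0 ∧ ∀ n, F (n + 1) = F n + f n := by
  refine ⟨fun n => ∑ k ∈ Finset.Ico 0 n, f k - ∑ k ∈ Finset.Ico n 0, f k, by simp, fun n => ?_⟩
  rcases le_or_gt 0 n with h | h
  · have h1 : Finset.Ico 0 (n + 1) = insert n (Finset.Ico 0 n) := by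
      ext k
      simp only [Finset.mem_Ico, Finset.mem_insert]
      omega
    have h2 : Finset.Ico (n + 1) 0 = ∅ := Finset.Ico_eq_empty_of_le (by omega)
    have h3 : Finset.Ico n 0 = ∅ := Finset.Ico_eq_empty_of_le (by omega)
    simp only [h1, h2, h3]
    rw [Finset.sum_insert (by simp)]
    ring
  · have h1 : Finset.Ico n 0 = insert n (Finset.Ico (n + 1) 0) := by
      ext k
      simp only [Finset.mem_Ico, Finset.mem_insert]
      omega
    have h2 : Finset.Ico 0 (n + 1) = ∅ := Finset.Ico_eq_empty_of_le (by omega)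
    have h3 : Finset.Ico 0 n = ∅ := Finset.Ico_eq_empty_of_le (by omega)
    simp only [h1, h2, h3]
    rw [Finset.sum_insert (by simp)]
    ring

open Classical in
/-- the indicator function -/
noncomputable def cc (J : Set Ed) (e : Ed) : ZMod 2 := if e ∈ J then 1 else 0

theorem cc_iff (J : Set Ed) (e : Ed) : e ∈ J ↔ cc J e = 1 := by
  unfold cc
  split_ifs with h
  · simp [h]
  · simp [h]

/-- the three edges at a vertex -/
theorem vert (J : Set Ed) (v : Vx) (h : Even {e | e ∈ J ∧ Inc v e}.ncard) :
    cc J (ea v) + cc J (eb v) + cc J (ec v) = 0 := by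
  classical
  have h1 : {e | e ∈ J ∧ Inc v e} =
      ((({ea v, eb v, ec v} : Finset Ed).filter (fun e => e ∈ J) : Finset Ed) : Set Ed) := by
    ext e
    rw [Finset.mem_coe, Finset.mem_filter, Set.mem_ofPred_eq, inc_iff]
    simp only [Finset.mem_insert, Finset.mem_singleton]
    exact and_comm
  rw [h1, Set.ncard_coe_finset, ← ZMod.natCast_eq_zero_iff_even, Finset.card_filter] at h
  have hab : ea v ≠ eb v := by
    obtain ⟨a, b, s⟩ := v
    cases s <;> simp [ea, eb]
  have hac : ea v ≠ ec v := by
    obtain ⟨a, b, s⟩ := v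
    cases s <;> simp [ea, ec]
  have hbc : eb v ≠ ec v := by
    obtain ⟨a, b, s⟩ := v
    cases s <;> simp [eb, ec]
  rw [Finset.sum_insert (by simp [hab, hac]), Finset.sum_insert (by simp [hbc]),
    Finset.sum_singleton] at h
  push_cast at h
  unfold cc
  rw [add_assoc]
  exact h

theorem two (x : ZMod 2) : x + x = 0 := CharTwo.add_self_eq_zero x

theorem t_pot : Pool.Agent.H950.ON.S_pot := by
  intro J hJ
  have hf : ∀ i j, cc J (i, j, .A) + cc J (i, j, .B) + cc J (i, j, .C) = 0 := by
    intro i j
    exact vert J (i, j, false) (hJ _)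
  have ht : ∀ i j, cc J (i, j + 1, .A) + cc J (i + 1, j, .B) + cc J (i, j, .C) = 0 := by
    intro i j
    exact vert J (i, j, true) (hJ _)
  obtain ⟨P, -, hP⟩ := prim (fun i => cc J (i, 0, .A))
  choose Q hQ0 hQ using fun i : ℤ => prim (fun j => cc J (i, j, .B))
  set s : ℤ → ℤ → ZMod 2 := fun i j => P i + Q i j with hs
  have hB : ∀ i j, s i j + s i (j + 1) = cc J (i, j, .B) := by
    intro i j
    simp only [hs]
    rw [hQ]
    linear_combination two (P i) + two (Q i j)
  have hstep : ∀ i j, s i (j + 1) + s (i + 1) (j + 1) - cc J (i, j + 1, .A) =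
      s i j + s (i + 1) j - cc J (i, j, .A) := by
    intro i j
    have h1 := hB i j
    have h2 := hB (i + 1) j
    have h3 := hf i j
    have h4 := ht i j
    have h5 := two (s i j)
    have h6 := two (s (i + 1) j)
    have h7 := two (cc J (i, j, .A))
    have h8 := two (cc J (i, j, .B))
    have h9 := two (cc J (i + 1, j, .B))
    linear_combination h1 + h2 - h4 + h3 - h5 - h6 + h9
  have hA : ∀ i j, s i j + s (i + 1) j - cc J (i, j, .A) = 0 := by
    intro i j
    induction j using Int.induction_on with
    | zero =>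
      simp only [hs, hQ0, hP]
      linear_combination two (P i)
    | succ j ih =>
      rw [hstep]
      exact ih
    | pred j ih =>
      have h1 := hstep i (-(j : ℤ) - 1)
      rw [sub_add_cancel] at h1
      rw [← h1]
      exact ih
  have hc : ∀ e, cc J e = s (s1 e).1 (s1 e).2 + s (s2 e).1 (s2 e).2 := by
    rintro ⟨i, j, k⟩
    cases k
    · simp only [s1, s2]
      linear_combination -hA i j
    · simp only [s1, s2]
      exact (hB i j).symm
    · simp only [s1, s2]
      linear_combination hf i j - hA i j - hB i j - two (cc J (i, j, .A)) -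
        two (cc J (i, j, .B)) + two (s i j)
  refine ⟨{h | s h.1 h.2 = 1}, fun e => ?_⟩
  rw [cc_iff, hc]
  simp only [Set.mem_ofPred_eq]
  generalize s (s1 e).1 (s1 e).2 = x
  generalize s (s2 e).1 (s2 e).2 = y
  revert x y
  decide

end Pool.Agent.H618.ON
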